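import Pool.Agent.W312.WT.Stm

/-!
# WT-SSrt: sorting real completion times
-/

set_option autoImplicit false

namespace Pool.Agent.W753.WT

open Pool.Agent.W312.WT

theorem proof_SSrt : Pool.Agent.W312.WT.SSrt := by
  intro p n C hp hC
  have hmono := Tuple.monotone_sort C
  set e : Equiv.Perm (Fin n) := Tuple.sort C with he
  refine ⟨e, fun k => if k = 0 then 0 else if h : k - 1 < n then C (e ⟨k - 1, h⟩) else 0,
    ?_, ?_, ?_⟩
  · intro j
    have h1 : (j : ℕ) + 1 ≠ 0 := by omega
    have h2 : (j : ℕ) + 1 - 1 < n := by have := j.isLt; omega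
    simp only [h1, if_false, dif_pos h2]
    congr 2
  · simp
  · intro j hj
    have h2 : j + 1 - 1 < n := by omega
    have e1 : (if j + 1 = 0 then (0 : ℝ) else if h : j + 1 - 1 < n then
        C (e ⟨j + 1 - 1, h⟩) else 0) = C (e ⟨j, hj⟩) := by
      rw [if_neg (by omega), dif_pos h2]
      congr 2
    rcases Nat.eq_zero_or_pos j with rfl | hj0
    · have h3 := hp (e ⟨0, hj⟩)
      have h4 : (0 : ℝ) ≤ p := Nat.cast_nonneg p
      simp only at e1 ⊢
      rw [e1]
      simp only [if_true]
      constructor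
      · linarith
      · push_cast; linarith
    · have h3 : j - 1 < n := by omega
      have e2 : (if j = 0 then (0 : ℝ) else if h : j - 1 < n then
          C (e ⟨j - 1, h⟩) else 0) = C (e ⟨j - 1, h3⟩) := by
        rw [if_neg (by omega), dif_pos h3]
      simp only at e1 e2 ⊢
      rw [e1, e2]
      have h4 : C (e ⟨j - 1, h3⟩) ≤ C (e ⟨j, hj⟩) :=
        hmono (show (⟨j - 1, h3⟩ : Fin n) ≤ ⟨j, hj⟩ from by
          rw [Fin.mk_le_mk]; omega)
      refine ⟨h4, ?_⟩
      have hne : e ⟨j - 1, h3⟩ ≠ e ⟨j, hj⟩ := by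
        intro h
        have h5 := e.injective h
        rw [Fin.mk.injEq] at h5
        omega
      have h6 := hC _ _ hne h4
      have hsub : (Finset.Iio (⟨j, hj⟩ : Fin n)).map e.toEmbedding ⊆
          Finset.univ.filter fun i : Fin n => i ≠ e ⟨j, hj⟩ ∧ C i ≤ C (e ⟨j - 1, h3⟩) := by
        intro i hi
        rw [Finset.mem_map] at hi
        obtain ⟨k, hk, rfl⟩ := hi
        rw [Finset.mem_Iio] at hk
        rw [Finset.mem_filter]
        refine ⟨Finset.mem_univ _, ?_, ?_⟩
        · intro h
          exact hk.ne (e.injective h)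
        · refine hmono ?_
          rw [Fin.le_iff_val_le_val]
          rw [Fin.lt_def] at hk
          simp only at hk ⊢
          omega
      have hcard := Finset.card_le_card hsub
      rw [Finset.card_map, Fin.card_Iio] at hcard
      simp only at hcard
      have h7 : (j : ℝ) ≤ ((Finset.univ.filter fun i : Fin n => i ≠ e ⟨j, hj⟩ ∧
          C i ≤ C (e ⟨j - 1, h3⟩)).card : ℝ) := by exact_mod_cast hcard
      have h8 : (0 : ℝ) ≤ p := Nat.cast_nonneg p
      nlinarith [mul_le_mul_of_nonneg_left h7 h8]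

end Pool.Agent.W753.WT
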